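import Pool.Agent.helper5.LDH.Spec
set_option autoImplicit false
open Complex MeasureTheory
namespace Pool.Agent.LDH
open Pool.Agent.helper84.DM Pool.Agent.helper78.ED Pool.Agent.DH

theorem INT_tri (N : ℕ) (f : ℕ → ℕ → ℂ) :
    ∑ m ∈ Finset.Ioc N (2 * N), ∑ n ∈ Finset.Ioo N m, f m n =
      ∑ h ∈ Finset.Ioo 0 N, ∑ n ∈ Finset.Ioc N (2 * N - h), f (n + h) n := by
  rw [Finset.sum_sigma', Finset.sum_sigma']
  refine Finset.sum_nbij' (fun x => ⟨x.1 - x.2, x.2⟩) (fun x => ⟨x.2 + x.1, x.2⟩) ?_ ?_ ?_ ?_ ?_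
  · rintro ⟨m, n⟩ hx
    simp only [Finset.mem_sigma, Finset.mem_Ioc, Finset.mem_Ioo] at hx ⊢
    omega
  · rintro ⟨h, n⟩ hx
    simp only [Finset.mem_sigma, Finset.mem_Ioc, Finset.mem_Ioo] at hx ⊢
    omega
  · rintro ⟨m, n⟩ hx
    simp only [Finset.mem_sigma, Finset.mem_Ioc, Finset.mem_Ioo] at hx
    have h1 : n + (m - n) = m := by omega
    show (⟨n + (m - n), n⟩ : (_ : ℕ) × ℕ) = ⟨m, n⟩
    rw [h1]
  · rintro ⟨h, n⟩ hx
    have h1 : n + h - n = h := by omega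
    show (⟨n + h - n, n⟩ : (_ : ℕ) × ℕ) = ⟨h, n⟩
    rw [h1]
  · rintro ⟨m, n⟩ hx
    simp only [Finset.mem_sigma, Finset.mem_Ioc, Finset.mem_Ioo] at hx
    have h1 : n + (m - n) = m := by omega
    show f m n = f (n + (m - n)) n
    rw [h1]

theorem INT_dbl (N : ℕ) (f : ℕ → ℕ → ℂ) (hf : ∀ m n, f n m = (starRingEnd ℂ) (f m n)) :
    ∑ m ∈ Finset.Ioc N (2 * N), ∑ n ∈ Finset.Ioc N (2 * N), f m n =
      (∑ n ∈ Finset.Ioc N (2 * N), f n n) +
       ((∑ h ∈ Finset.Ioo 0 N, ∑ n ∈ Finset.Ioc N (2 * N - h), f (n + h) n) +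
       (starRingEnd ℂ) (∑ h ∈ Finset.Ioo 0 N, ∑ n ∈ Finset.Ioc N (2 * N - h), f (n + h) n)) := by
  have h1 : ∀ m ∈ Finset.Ioc N (2 * N), ∑ n ∈ Finset.Ioc N (2 * N), f m n =
      f m m + (∑ n ∈ Finset.Ioo N m, f m n + ∑ n ∈ Finset.Ioc m (2 * N), f m n) := by
    intro m hm
    rw [Finset.mem_Ioc] at hm
    have h2 : Finset.Ioc N (2 * N) = insert m (Finset.Ioo N m ∪ Finset.Ioc m (2 * N)) := by
      ext x
      simp only [Finset.mem_Ioc, Finset.mem_insert, Finset.mem_union, Finset.mem_Ioo]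
      omega
    rw [h2, Finset.sum_insert, Finset.sum_union]
    · rw [Finset.disjoint_left]
      intro x hx hx2
      rw [Finset.mem_Ioo] at hx
      rw [Finset.mem_Ioc] at hx2
      omega
    · simp only [Finset.mem_union, Finset.mem_Ioo, Finset.mem_Ioc]
      omega
  rw [Finset.sum_congr rfl h1, Finset.sum_add_distrib, Finset.sum_add_distrib, INT_tri]
  congr 2
  rw [← INT_tri, map_sum, Finset.sum_comm' (t' := Finset.Ioc N (2 * N)) (s' := fun n => Finset.Ioo N n)]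
  · refine Finset.sum_congr rfl fun m _ => ?_
    rw [map_sum]
    refine Finset.sum_congr rfl fun n _ => ?_
    exact hf m n
  · intro x y
    simp only [Finset.mem_Ioo, Finset.mem_Ioc]
    omega

theorem INT_E (m n : ℕ) (hm : 0 < m) (hn : 0 < n) (u : ℝ) :
    (m : ℂ) ^ (-((u : ℂ) * I)) * (starRingEnd ℂ) ((n : ℂ) ^ (-((u : ℂ) * I))) =
      Complex.exp (-((u : ℂ) * ((Real.log m - Real.log n : ℝ) : ℂ) * I)) := by
  have hm0 : (m : ℂ) ≠ 0 := by exact_mod_cast hm.ne'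
  have hn0 : (n : ℂ) ≠ 0 := by exact_mod_cast hn.ne'
  rw [Complex.cpow_def_of_ne_zero hm0, Complex.cpow_def_of_ne_zero hn0, ← Complex.natCast_log,
    ← Complex.natCast_log, ← Complex.exp_conj, ← Complex.exp_add]
  congr 1
  simp only [map_mul, map_neg, Complex.conj_ofReal, Complex.conj_I]
  push_cast
  ring

theorem INT_gauss (H t y : ℝ) (hH : 0 < H) :
    Integrable (fun u : ℝ => ((Real.exp (-((u - t) / H) ^ 2) : ℝ) : ℂ) *
      Complex.exp (-((u : ℂ) * (y : ℂ) * I))) ∧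
    ∫ u : ℝ, ((Real.exp (-((u - t) / H) ^ 2) : ℝ) : ℂ) * Complex.exp (-((u : ℂ) * (y : ℂ) * I)) =
      ((Real.sqrt Real.pi * H * Real.exp (-(H * y) ^ 2 / 4) : ℝ) : ℂ) *
        Complex.exp (-((t : ℂ) * (y : ℂ) * I)) := by
  have hH0 : (H : ℂ) ≠ 0 := by exact_mod_cast hH.ne'
  obtain ⟨b, hb⟩ : ∃ b : ℂ, b = ((-(1 / H ^ 2) : ℝ) : ℂ) := ⟨_, rfl⟩
  obtain ⟨c, hc⟩ : ∃ c : ℂ, c = 2 * (t : ℂ) / (H : ℂ) ^ 2 - (y : ℂ) * I := ⟨_, rfl⟩
  obtain ⟨d, hd⟩ : ∃ d : ℂ, d = -((t : ℂ) ^ 2 / (H : ℂ) ^ 2) := ⟨_, rfl⟩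
  have hbre : b.re < 0 := by
    rw [hb, Complex.ofReal_re]
    have : 0 < 1 / H ^ 2 := by positivity
    linarith
  have he : ∀ u : ℝ, ((Real.exp (-((u - t) / H) ^ 2) : ℝ) : ℂ) *
      Complex.exp (-((u : ℂ) * (y : ℂ) * I)) = Complex.exp (b * (u : ℂ) ^ 2 + c * (u : ℂ) + d) := by
    intro u
    rw [Complex.ofReal_exp, ← Complex.exp_add]
    congr 1
    rw [hb, hc, hd]
    push_cast
    field_simp
    ring
  have hfun : (fun u : ℝ => ((Real.exp (-((u - t) / H) ^ 2) : ℝ) : ℂ) *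
      Complex.exp (-((u : ℂ) * (y : ℂ) * I))) =
      fun u : ℝ => Complex.exp (b * (u : ℂ) ^ 2 + c * (u : ℂ) + d) := funext he
  refine ⟨?_, ?_⟩
  · rw [hfun]
    exact integrable_cexp_quadratic' hbre c d
  · rw [hfun, integral_cexp_quadratic hbre c d]
    have h1 : (Real.pi / -b : ℂ) ^ (1 / 2 : ℂ) = ((Real.sqrt Real.pi * H : ℝ) : ℂ) := by
      have h2 : (Real.pi / -b : ℂ) = ((Real.pi * H ^ 2 : ℝ) : ℂ) := by
        rw [hb]
        push_cast
        field_simp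
      have h3 : (1 / 2 : ℂ) = ((1 / 2 : ℝ) : ℂ) := by push_cast; ring
      rw [h2, h3, ← Complex.ofReal_cpow (by positivity), ← Real.sqrt_eq_rpow,
        Real.sqrt_mul Real.pi_pos.le, Real.sqrt_sq hH.le]
    rw [h1]
    have h4 : d - c ^ 2 / (4 * b) = ((-(H * y) ^ 2 / 4 : ℝ) : ℂ) + -((t : ℂ) * (y : ℂ) * I) := by
      have hI : (I : ℂ) ^ 2 = -1 := Complex.I_sq
      rw [hb, hc, hd]
      push_cast
      field_simp
      ring_nf
      rw [hI]
      ring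
    rw [h4, Complex.exp_add, Complex.ofReal_mul (Real.sqrt Real.pi * H), Complex.ofReal_exp]
    ring

theorem INT : INT_stmt := by
  intro N w H t hH
  obtain ⟨L, hL⟩ : ∃ L : ℕ → ℕ → ℝ, L = fun m n : ℕ => Real.log m - Real.log n := ⟨_, rfl⟩
  -- the integrand as a finite sum
  have hpos : ∀ n ∈ Finset.Ioc N (2 * N), 0 < n := fun n hn => by
    have := (Finset.mem_Ioc.1 hn).1
    omega
  have hexp : ∀ u : ℝ, ((Real.exp (-((u - t) / H) ^ 2) *
      ‖DP N (fun n => ((w n : ℝ) : ℂ)) u‖ ^ 2 : ℝ) : ℂ) =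
      ∑ m ∈ Finset.Ioc N (2 * N), ∑ n ∈ Finset.Ioc N (2 * N), ((w m * w n : ℝ) : ℂ) *
        (((Real.exp (-((u - t) / H) ^ 2) : ℝ) : ℂ) *
          Complex.exp (-((u : ℂ) * ((L m n : ℝ) : ℂ) * I))) := by
    intro u
    have h1 : ((‖DP N (fun n => ((w n : ℝ) : ℂ)) u‖ ^ 2 : ℝ) : ℂ) =
        DP N (fun n => ((w n : ℝ) : ℂ)) u *
          (starRingEnd ℂ) (DP N (fun n => ((w n : ℝ) : ℂ)) u) := by
      rw [Complex.mul_conj, Complex.normSq_eq_norm_sq]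
    rw [Complex.ofReal_mul, h1]
    unfold DP
    rw [map_sum, Finset.sum_mul_sum, Finset.mul_sum]
    refine Finset.sum_congr rfl fun m hm => ?_
    rw [Finset.mul_sum]
    refine Finset.sum_congr rfl fun n hn => ?_
    have h2 := INT_E m n (hpos m hm) (hpos n hn) u
    rw [map_mul, Complex.conj_ofReal, hL, ← h2]
    push_cast
    ring
  have hgi := fun m n : ℕ => (INT_gauss H t (L m n) hH).1
  have hgv := fun m n : ℕ => (INT_gauss H t (L m n) hH).2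
  have hintC : Integrable (fun u : ℝ => ((Real.exp (-((u - t) / H) ^ 2) *
      ‖DP N (fun n => ((w n : ℝ) : ℂ)) u‖ ^ 2 : ℝ) : ℂ)) := by
    have h1 : (fun u : ℝ => ((Real.exp (-((u - t) / H) ^ 2) *
      ‖DP N (fun n => ((w n : ℝ) : ℂ)) u‖ ^ 2 : ℝ) : ℂ)) = _ := funext hexp
    rw [h1]
    refine integrable_finsetSum _ fun m _ => integrable_finsetSum _ fun n _ => ?_
    exact (hgi m n).const_mul _
  have hintR : Integrable (fun u : ℝ => Real.exp (-((u - t) / H) ^ 2) *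
      ‖DP N (fun n => ((w n : ℝ) : ℂ)) u‖ ^ 2) := by
    have h1 := hintC.re
    exact h1
  refine ⟨hintR, ?_⟩
  obtain ⟨f, hf⟩ : ∃ f : ℕ → ℕ → ℂ, f = fun m n => ((w m * w n : ℝ) : ℂ) *
      (((Real.exp (-(H * L m n) ^ 2 / 4) : ℝ) : ℂ) *
        Complex.exp (-((t : ℂ) * ((L m n : ℝ) : ℂ) * I))) := ⟨_, rfl⟩
  have hJ : ((JJ N w H t : ℝ) : ℂ) = ((Real.sqrt Real.pi * H : ℝ) : ℂ) *
      ∑ m ∈ Finset.Ioc N (2 * N), ∑ n ∈ Finset.Ioc N (2 * N), f m n := by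
    unfold JJ
    rw [← integral_complex_ofReal]
    have h1 : (fun u : ℝ => ((Real.exp (-((u - t) / H) ^ 2) *
      ‖DP N (fun n => ((w n : ℝ) : ℂ)) u‖ ^ 2 : ℝ) : ℂ)) = _ := funext hexp
    rw [h1, integral_finsetSum _ (fun m _ => integrable_finsetSum _ fun n _ =>
      (hgi m n).const_mul _), Finset.mul_sum]
    refine Finset.sum_congr rfl fun m _ => ?_
    rw [integral_finsetSum _ (fun n _ => (hgi m n).const_mul _), Finset.mul_sum]
    refine Finset.sum_congr rfl fun n _ => ?_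
    rw [integral_const_mul, hgv m n, hf]
    push_cast
    ring
  have hfc : ∀ m n, f n m = (starRingEnd ℂ) (f m n) := by
    intro m n
    have h1 : L n m = -(L m n) := by rw [hL]; simp
    rw [hf]
    simp only [map_mul, Complex.conj_ofReal, h1]
    rw [← Complex.exp_conj]
    simp only [map_neg, map_mul, Complex.conj_ofReal, Complex.conj_I]
    have h2 : -(H * -(L m n)) ^ 2 / 4 = -(H * L m n) ^ 2 / 4 := by ring
    rw [h2, mul_comm (w n) (w m)]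
    congr 3
    push_cast
    ring
  rw [INT_dbl N f hfc] at hJ
  obtain ⟨S, hS⟩ : ∃ S : ℂ, S = ∑ h ∈ Finset.Ioo 0 N, ∑ n ∈ Finset.Ioc N (2 * N - h), f (n + h) n :=
    ⟨_, rfl⟩
  rw [← hS] at hJ
  have hdiag : ∑ n ∈ Finset.Ioc N (2 * N), f n n = ((∑ n ∈ Finset.Ioc N (2 * N), w n ^ 2 : ℝ) : ℂ) := by
    rw [Complex.ofReal_sum]
    refine Finset.sum_congr rfl fun n _ => ?_
    rw [hf]
    have h1 : L n n = 0 := by rw [hL]; simp
    simp only [h1]
    simp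
    ring
  rw [hdiag, Complex.add_conj, ← Complex.ofReal_add, ← Complex.ofReal_mul] at hJ
  have hJ2 := Complex.ofReal_injective hJ
  rw [hJ2]
  have hSn : S.re ≤ ∑ h ∈ Finset.Ioo 0 N,
      ‖∑ n ∈ Finset.Ioc N (2 * N - h), ((w n * w (n + h) * gg H h n : ℝ) : ℂ) * PH t h n‖ := by
    refine (Complex.re_le_norm S).trans ?_
    rw [hS]
    refine (norm_sum_le _ _).trans ?_
    refine Finset.sum_le_sum fun h _ => ?_
    apply le_of_eq
    congr 1
    refine Finset.sum_congr rfl fun n hn => ?_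
    have hn0 : 0 < n := by
      have := (Finset.mem_Ioc.1 hn).1
      omega
    have h1 := INT_E (n + h) n (by omega) hn0 t
    have h2 : lg h n = L (n + h) n := by
      unfold lg
      rw [hL, Real.log_div (by positivity) (by positivity)]
    unfold PH gg
    rw [h1, hf, h2, hL]
    push_cast
    ring
  have hpi : Real.sqrt Real.pi ≤ 2 := by
    rw [Real.sqrt_le_left (by norm_num)]
    have := Real.pi_lt_four
    linarith
  have hsum : 0 ≤ (∑ n ∈ Finset.Ioc N (2 * N), w n ^ 2) + 2 * ∑ h ∈ Finset.Ioo 0 N,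
      ‖∑ n ∈ Finset.Ioc N (2 * N - h), ((w n * w (n + h) * gg H h n : ℝ) : ℂ) * PH t h n‖ := by
    have h1 : 0 ≤ ∑ n ∈ Finset.Ioc N (2 * N), w n ^ 2 := Finset.sum_nonneg fun n _ => sq_nonneg _
    have h2 : 0 ≤ ∑ h ∈ Finset.Ioo 0 N,
      ‖∑ n ∈ Finset.Ioc N (2 * N - h), ((w n * w (n + h) * gg H h n : ℝ) : ℂ) * PH t h n‖ :=
      Finset.sum_nonneg fun n _ => norm_nonneg _
    linarith
  calc Real.sqrt Real.pi * H * ((∑ n ∈ Finset.Ioc N (2 * N), w n ^ 2) + 2 * S.re)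
      ≤ Real.sqrt Real.pi * H * ((∑ n ∈ Finset.Ioc N (2 * N), w n ^ 2) + 2 * ∑ h ∈ Finset.Ioo 0 N,
      ‖∑ n ∈ Finset.Ioc N (2 * N - h), ((w n * w (n + h) * gg H h n : ℝ) : ℂ) * PH t h n‖) := by
        apply mul_le_mul_of_nonneg_left _ (by positivity)
        linarith
    _ ≤ _ := by
        apply mul_le_mul_of_nonneg_right _ hsum
        exact mul_le_mul_of_nonneg_right hpi hH.le

end Pool.Agent.LDH
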